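import Pool.Agent.H5.Asq

set_option autoImplicit false

namespace Pool.Agent.Results.MP_4410f0_an.NoD2P

open scoped Topology BoundedContinuousFunction
open Filter Metric Set Pool.Agent.H5 Pool.Agent.H5.Asq

section defs

/-- `W` is a relatively weakly open subset of the closed unit ball -/
def RelWeakOpen {X : Type} [NormedAddCommGroup X] [NormedSpace ℝ X] (W : Set X) : Prop :=
  ∃ U : Set (WeakSpace ℝ X), IsOpen U ∧ W = closedBall (0 : X) 1 ∩ toWeakSpace ℝ X ⁻¹' U

/-- the Daugavet index of thickness -/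
noncomputable def dindex (X : Type) [NormedAddCommGroup X] [NormedSpace ℝ X] : ℝ :=
  sInf {r : ℝ | 0 < r ∧ ∃ x : X, ‖x‖ = 1 ∧ ∃ W : Set X, RelWeakOpen W ∧ W.Nonempty ∧
    W ⊆ closedBall x r}

end defs

noncomputable def N (v : ℝ × c0) : ℝ :=
  max ‖v.2‖ ‖v.2.toBCF - BoundedContinuousFunction.const ℕ v.1‖

lemma N_le {v : ℝ × c0} {C : ℝ} :
    N v ≤ C ↔ ∀ k, |v.2 k| ≤ C ∧ |v.2 k - v.1| ≤ C := by
  refine ⟨fun h k => ⟨(abs_le_norm _ k).trans ((le_max_left _ _).trans h),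
    (BoundedContinuousFunction.norm_coe_le_norm
      (v.2.toBCF - BoundedContinuousFunction.const ℕ v.1) k).trans ((le_max_right _ _).trans h)⟩,
    fun h => ?_⟩
  have h0 : 0 ≤ C := (abs_nonneg _).trans (h 0).1
  exact max_le (norm_le_of _ h0 fun k => (h k).1)
    ((BoundedContinuousFunction.norm_le h0).2 fun k => (h k).2)

lemma fst_le (v : ℝ × c0) : |v.1| ≤ N v := by
  have h1 : Tendsto (fun k => N v + |v.2 k|) atTop (𝓝 (N v + 0)) := (c0_lim v.2).const_add _
  rw [add_zero] at h1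
  refine ge_of_tendsto' h1 fun k => ?_
  have h2 := (N_le.1 (le_refl (N v)) k).2
  have h3 := abs_sub_abs_le_abs_sub v.1 (v.2 k)
  rw [abs_sub_comm] at h3
  linarith

lemma space : ∃ (X : Type) (_ : NormedAddCommGroup X) (_ : NormedSpace ℝ X)
    (_ : CompleteSpace X) (e : (ℝ × c0) ≃L[ℝ] X), ∀ v, ‖e v‖ = N v := by
  refine Renorm.renorm _ N (a := 1) (b := 2) one_pos (fun x y => N_le.2 fun k => ?_)
    (fun c x => ?_) (fun x => ?_) (fun x => N_le.2 fun k => ?_)
  · have h1 := N_le.1 (le_refl (N x)) k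
    have h2 := N_le.1 (le_refl (N y)) k
    have h3 : |(x + y).2 k| ≤ |x.2 k| + |y.2 k| := abs_add_le _ _
    have h4 : |(x + y).2 k - (x + y).1| ≤ |x.2 k - x.1| + |y.2 k - y.1| := by
      refine le_trans (le_of_eq ?_) (abs_add_le _ _)
      congr 1
      change x.2 k + y.2 k - (x.1 + y.1) = _
      ring
    exact ⟨by linarith [h1.1, h2.1], by linarith [h1.2, h2.2]⟩
  · unfold N
    rw [mul_max_of_nonneg _ _ (abs_nonneg c), Prod.smul_snd, norm_smul, ← Real.norm_eq_abs,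
      ← norm_smul c (_ - _)]
    congr 2
    ext k
    change c * x.2 k - c * x.1 = c * (x.2 k - x.1)
    ring
  · rw [one_mul, Prod.norm_def]
    exact max_le (fst_le x) (le_max_left _ _)
  · have h1 := abs_le_norm x.2 k
    have h2 := abs_sub (x.2 k) x.1
    have h3 : |x.1| ≤ ‖x‖ := norm_fst_le x
    exact ⟨by linarith [norm_snd_le x, norm_nonneg x], by linarith [norm_snd_le x]⟩

lemma null (s : c0 →L[ℝ] ℝ) (c : ℕ → ℝ) (hc : ∀ n, |c n| ≤ 2) :
    Tendsto (fun n => s (c n • u n)) atTop (𝓝 0) := by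
  refine Metric.tendsto_atTop.2 fun ε hε => ?_
  obtain ⟨K, hK⟩ := (tail s (η := ε / 3) (by positivity)).exists
  refine ⟨K + 1, fun n hn => ?_⟩
  have h1 := hK (c n • u n) fun k hk => by
    change c n * (if k = n then 1 else 0) = 0
    rw [if_neg (by omega), mul_zero]
  have h2 : ‖c n • u n‖ ≤ 2 := norm_le_of _ zero_le_two fun k => by
    change |c n * (if k = n then 1 else 0)| ≤ 2
    split_ifs
    · simpa using hc n
    · simp
  rw [dist_zero_right, Real.norm_eq_abs]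
  nlinarith

/-- Index at least one, and a weakly open subset of the ball of diameter below two. -/
theorem result : ∃ (X : Type) (_ : NormedAddCommGroup X) (_ : NormedSpace ℝ X)
    (_ : CompleteSpace X) (_ : Nontrivial X), 1 ≤ dindex X ∧
      ∃ W : Set X, RelWeakOpen W ∧ W.Nonempty ∧ diam W < 2 := by
  obtain ⟨X, i1, i2, i3, e, he⟩ := space
  have h1 : ‖e (1, 0)‖ = 1 := by
    rw [he]
    exact le_antisymm (N_le.2 fun k => by simp) (by simpa using fst_le (1, 0))
  refine ⟨X, i1, i2, i3, e.symm.toEquiv.nontrivial, le_csInf ⟨2, two_pos, _, h1, _,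
    ⟨univ, isOpen_univ, rfl⟩, ⟨0, by simp⟩, fun y hy => ?_⟩ ?_, ?_⟩
  · have h2 := mem_closedBall_zero_iff.1 hy.1
    rw [mem_closedBall, dist_eq_norm]
    linarith [norm_sub_le y (e (1, 0))]
  · rintro r ⟨-, x, -, _, ⟨U, hU, rfl⟩, ⟨w, hw, hwU⟩, hs⟩
    obtain ⟨w, rfl⟩ := e.surjective w
    obtain ⟨x, rfl⟩ := e.surjective x
    rw [mem_closedBall_zero_iff, he] at hw
    have h2 := abs_le.1 ((fst_le w).trans hw)
    obtain ⟨s, hs1, hs2⟩ : ∃ s : ℝ, |s| = 1 ∧ |s - w.1| ≤ 1 := by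
      rcases le_total 0 w.1 with h | h
      · exact ⟨1, abs_one, abs_le.2 ⟨by linarith [h2.2], by linarith⟩⟩
      · exact ⟨-1, by simp, abs_le.2 ⟨by linarith, by linarith [h2.1]⟩⟩
    let y : ℕ → ℝ × c0 := fun n => w + (0, (s - w.2 n) • u n)
    have h3 : ∀ n k, (y n).2 k = if k = n then s else w.2 k := fun n k => by
      change w.2 k + (s - w.2 n) * (if k = n then 1 else 0) = _
      split_ifs with h
      · rw [h]; ring
      · ring
    have h4 : ∀ n, N (y n) ≤ 1 := fun n => N_le.2 fun k => by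
      rw [h3, show (y n).1 = w.1 from add_zero _]
      split_ifs
      · exact ⟨hs1.le, hs2⟩
      · exact N_le.1 hw k
    have h5 : Tendsto (fun n => toWeakSpace ℝ X (e (y n))) atTop (𝓝 (toWeakSpace ℝ X (e w))) := by
      have hind : Topology.IsInducing (fun (x : WeakBilin (topDualPairing ℝ X).flip)
        (y : X →L[ℝ] ℝ) => (topDualPairing ℝ X).flip x y) := ⟨rfl⟩
      refine hind.tendsto_nhds_iff.2 (tendsto_pi_nhds.2 fun φ => ?_)
      have h6 := (null (φ ∘L (e : ℝ × c0 →L[ℝ] X) ∘L ContinuousLinearMap.inr ℝ ℝ c0)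
        (fun n => s - w.2 n) fun n => by
          linarith [abs_sub s (w.2 n), (N_le.1 hw n).1]).const_add (φ (e w))
      rw [add_zero] at h6
      refine h6.congr fun n => ?_
      change _ = φ (e (w + _))
      rw [map_add, map_add]
      rfl
    have h6 : Tendsto (fun n => 1 - |x.2 n|) atTop (𝓝 (1 - 0)) := (c0_lim x.2).const_sub _
    rw [sub_zero] at h6
    refine le_of_tendsto h6 ?_
    filter_upwards [h5.eventually (hU.mem_nhds hwU)] with n hn
    have h7 := hs ⟨mem_closedBall_zero_iff.2 ((he _).trans_le (h4 n)), hn⟩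
    rw [mem_closedBall, dist_eq_norm, ← map_sub, he] at h7
    have h8 := (N_le.1 h7 n).1
    rw [show (y n - x).2 n = (y n).2 n - x.2 n from rfl, h3, if_pos rfl] at h8
    linarith [abs_sub_abs_le_abs_sub s (x.2 n)]
  · let φ : X →L[ℝ] ℝ := ContinuousLinearMap.fst ℝ ℝ c0 ∘L (e.symm : X →L[ℝ] ℝ × c0)
    have hφ : ∀ v, φ (e v) = v.1 := fun v => by simp [φ]
    refine ⟨_, ⟨{x | 1 / 2 < φ ((toWeakSpace ℝ X).symm x)}, isOpen_lt continuous_const
      (WeakBilin.eval_continuous (topDualPairing ℝ X).flip φ), rfl⟩,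
      ⟨e (1, 0), mem_closedBall_zero_iff.2 h1.le, ?_⟩,
      lt_of_le_of_lt (diam_le_of_forall_dist_le (C := 3 / 2) (by norm_num) ?_) (by norm_num)⟩
    · change 1 / 2 < φ (e (1, 0))
      rw [hφ]; norm_num
    · rintro a ⟨ha, ha'⟩ b ⟨hb, hb'⟩
      obtain ⟨a, rfl⟩ := e.surjective a
      obtain ⟨b, rfl⟩ := e.surjective b
      change 1 / 2 < φ (e a) at ha'
      change 1 / 2 < φ (e b) at hb'
      rw [hφ] at ha' hb'
      rw [mem_closedBall_zero_iff, he] at ha hb
      rw [dist_eq_norm, ← map_sub, he]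
      refine N_le.2 fun k => ?_
      have k1 := N_le.1 ha k
      have k2 := N_le.1 hb k
      change |a.2 k - b.2 k| ≤ _ ∧ |a.2 k - b.2 k - (a.1 - b.1)| ≤ _
      simp only [abs_le] at k1 k2 ⊢
      refine ⟨⟨?_, ?_⟩, ?_, ?_⟩ <;> linarith [k1.1.1, k1.1.2, k1.2.1, k1.2.2, k2.1.1, k2.1.2,
        k2.2.1, k2.2.2]

end Pool.Agent.Results.MP_4410f0_an.NoD2P
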